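import Pool.Agent.H639Z.OP.Defs

set_option autoImplicit false
open MeasureTheory Filter Topology
open scoped ENNReal

namespace Pool.Agent.H639Z.OP

variable {d : ℕ}

theorem int_mul {a b : X d → ℝ} (ha : MemLp a 2 volume) (hb : MemLp b 2 volume) :
    Integrable (fun x => a x * b x) volume := ha.integrable_mul hb

theorem pd_cont {φ : X d → ℝ} (hφ : Sm φ) (i : Fin d) : Continuous (pd φ i) := by
  unfold pd
  exact (hφ.continuous_fderiv (by simp)).clm_apply continuous_const

theorem pd_supp {φ : X d → ℝ} (hc : HasCompactSupport φ) (i : Fin d) :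
    HasCompactSupport (pd φ i) := by
  unfold pd
  exact hc.fderiv_apply (𝕜 := ℝ) (Pi.single i (1 : ℝ))

theorem test_memLp {φ : X d → ℝ} (hφ : Sm φ) (hc : HasCompactSupport φ) : MemLp φ 2 volume :=
  hφ.continuous.memLp_of_hasCompactSupport hc

theorem pd_memLp {φ : X d → ℝ} (hφ : Sm φ) (hc : HasCompactSupport φ) (i : Fin d) :
    MemLp (pd φ i) 2 volume :=
  (pd_cont hφ i).memLp_of_hasCompactSupport (pd_supp hc i)

theorem H1.zero : H1 (0 : P d) :=
  ⟨by simp, fun i => by simp, fun i φ _ _ => by simp⟩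

theorem H1.add {f h : P d} (hf : H1 f) (hh : H1 h) : H1 (f + h) := by
  refine ⟨hf.u2.add hh.u2, fun i => (hf.g2 i).add (hh.g2 i), fun i φ hφ hc => ?_⟩
  have h1 := hf.weak i φ hφ hc
  have h2 := hh.weak i φ hφ hc
  simp only [Prod.fst_add, Prod.snd_add, Pi.add_apply, add_mul]
  rw [integral_add (int_mul hf.u2 (pd_memLp hφ hc i)) (int_mul hh.u2 (pd_memLp hφ hc i)),
    integral_add (int_mul (hf.g2 i) (test_memLp hφ hc)) (int_mul (hh.g2 i) (test_memLp hφ hc))]
  linarith

theorem H1.smul {f : P d} (c : ℝ) (hf : H1 f) : H1 (c • f) := by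
  refine ⟨hf.u2.const_smul c, fun i => (hf.g2 i).const_smul c, fun i φ hφ hc => ?_⟩
  have h1 := hf.weak i φ hφ hc
  simp only [Prod.smul_fst, Prod.smul_snd, Pi.smul_apply, smul_eq_mul, mul_assoc]
  rw [integral_const_mul, integral_const_mul, h1]; ring

/-- `H¹` as a subspace -/
def HS (d : ℕ) : Submodule ℝ (P d) where
  carrier := {f | H1 f}
  zero_mem' := H1.zero
  add_mem' := fun hf hh => H1.add hf hh
  smul_mem' := fun c _ hf => H1.smul c hf

theorem mem_HS {f : P d} : f ∈ HS d ↔ H1 f := Iff.rfl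

theorem H1.sub {f h : P d} (hf : H1 f) (hh : H1 h) : H1 (f - h) :=
  (HS d).sub_mem hf hh

theorem H1.congr {f h : P d} (hf : H1 f) (h1 : f.1 =ᵐ[volume] h.1)
    (h2 : ∀ i, f.2 i =ᵐ[volume] h.2 i) : H1 h := by
  refine ⟨hf.u2.ae_eq h1, fun i => (hf.g2 i).ae_eq (h2 i), fun i φ hφ hc => ?_⟩
  have := hf.weak i φ hφ hc
  rw [← integral_congr_ae (h1.mono fun x hx => by simp only [hx] :
      (fun x => f.1 x * pd φ i x) =ᵐ[volume] fun x => h.1 x * pd φ i x),
    ← integral_congr_ae ((h2 i).mono fun x hx => by simp only [hx] :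
      (fun x => f.2 i x * φ x) =ᵐ[volume] fun x => h.2 i x * φ x)]
  exact this

theorem aem_pot {V : X d → ℝ≥0∞} (hV : Measurable V) {u : X d → ℝ}
    (hu : AEStronglyMeasurable u volume) :
    AEMeasurable (fun x => V x * ENNReal.ofReal (u x ^ 2)) volume :=
  hV.aemeasurable.mul ((hu.aemeasurable.pow_const 2).ennreal_ofReal)

theorem Dom.zero (V : X d → ℝ≥0∞) : Dom V (0 : P d) := ⟨H1.zero, by simp⟩

theorem Dom.add {V : X d → ℝ≥0∞} (hV : Measurable V) {f h : P d} (hf : Dom V f) (hh : Dom V h) :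
    Dom V (f + h) := by
  refine ⟨hf.h1.add hh.h1, ?_⟩
  have hle : ∀ x, V x * ENNReal.ofReal ((f + h).1 x ^ 2) ≤
      2 * (V x * ENNReal.ofReal (f.1 x ^ 2)) + 2 * (V x * ENNReal.ofReal (h.1 x ^ 2)) := by
    intro x
    have : ENNReal.ofReal ((f + h).1 x ^ 2) ≤
        2 * ENNReal.ofReal (f.1 x ^ 2) + 2 * ENNReal.ofReal (h.1 x ^ 2) := by
      rw [← ENNReal.ofReal_ofNat, ← ENNReal.ofReal_mul (by norm_num),
        ← ENNReal.ofReal_mul (by norm_num),
        ← ENNReal.ofReal_add (by positivity) (by positivity)]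
      apply ENNReal.ofReal_le_ofReal
      simp only [Prod.fst_add, Pi.add_apply]
      nlinarith [sq_nonneg (f.1 x - h.1 x)]
    calc _ ≤ V x * (2 * ENNReal.ofReal (f.1 x ^ 2) + 2 * ENNReal.ofReal (h.1 x ^ 2)) := by gcongr
      _ = _ := by ring
  refine lt_of_le_of_lt (lintegral_mono hle) ?_
  rw [lintegral_add_left' ((aem_pot hV hf.h1.u2.1).const_mul 2),
    lintegral_const_mul' _ _ (by simp), lintegral_const_mul' _ _ (by simp)]
  exact ENNReal.add_lt_top.2 ⟨ENNReal.mul_lt_top (by simp) hf.fin,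
    ENNReal.mul_lt_top (by simp) hh.fin⟩

theorem Dom.smul {V : X d → ℝ≥0∞} (c : ℝ) {f : P d} (hf : Dom V f) : Dom V (c • f) := by
  refine ⟨hf.h1.smul c, ?_⟩
  have : ∀ x, V x * ENNReal.ofReal ((c • f).1 x ^ 2) =
      ENNReal.ofReal (c ^ 2) * (V x * ENNReal.ofReal (f.1 x ^ 2)) := by
    intro x
    simp only [Prod.smul_fst, Pi.smul_apply, smul_eq_mul, mul_pow]
    rw [ENNReal.ofReal_mul (by positivity)]; ring
  simp_rw [this]
  rw [lintegral_const_mul' _ _ (by simp)]
  exact ENNReal.mul_lt_top (by simp) hf.fin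

/-- the form domain as a subspace -/
def DV (V : X d → ℝ≥0∞) (hV : Measurable V) : Submodule ℝ (P d) where
  carrier := {f | Dom V f}
  zero_mem' := Dom.zero V
  add_mem' := fun hf hh => Dom.add hV hf hh
  smul_mem' := fun c _ hf => Dom.smul c hf

theorem mem_DV {V : X d → ℝ≥0∞} {hV : Measurable V} {f : P d} : f ∈ DV V hV ↔ Dom V f := Iff.rfl

theorem Dom.sum {V : X d → ℝ≥0∞} (hV : Measurable V) {ι : Type} [Fintype ι] {U : ι → P d}
    (hU : ∀ j, Dom V (U j)) (c : ι → ℝ) : Dom V (∑ j, c j • U j) :=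
  (DV V hV).sum_mem fun j _ => (DV V hV).smul_mem (c j) (hU j)

theorem H1.sum {ι : Type} [Fintype ι] {U : ι → P d}
    (hU : ∀ j, H1 (U j)) (c : ι → ℝ) : H1 (∑ j, c j • U j) :=
  (HS d).sum_mem fun j _ => (HS d).smul_mem (c j) (hU j)

theorem sum_fst {ι : Type} [Fintype ι] (U : ι → P d) (c : ι → ℝ) (x : X d) :
    (∑ j, c j • U j).1 x = ∑ j, c j * (U j).1 x := by
  simp [Prod.fst_sum, Finset.sum_apply]

theorem sum_snd {ι : Type} [Fintype ι] (U : ι → P d) (c : ι → ℝ) (i : Fin d) (x : X d) :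
    (∑ j, c j • U j).2 i x = ∑ j, c j * (U j).2 i x := by
  simp [Prod.snd_sum, Finset.sum_apply]

theorem Dom.ae_top {V : X d → ℝ≥0∞} (hV : Measurable V) {f : P d} (hf : Dom V f) :
    ∀ᵐ x ∂volume, V x = ⊤ → f.1 x = 0 := by
  filter_upwards [ae_lt_top' (aem_pot hV hf.h1.u2.1) hf.fin.ne] with x hx hV
  by_contra h
  rw [hV, ENNReal.top_mul] at hx
  · exact lt_irrefl _ hx
  · simp only [ne_eq, ENNReal.ofReal_eq_zero, not_le]; positivity

theorem Dom.ae_eq {V : X d → ℝ≥0∞} (hV : Measurable V) {f : P d} (hf : Dom V f) :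
    ∀ᵐ x ∂volume, V x * ENNReal.ofReal (f.1 x ^ 2) =
      ENNReal.ofReal ((V x).toReal * (f.1 x * f.1 x)) := by
  filter_upwards [hf.ae_top hV] with x hx
  by_cases h : V x = ⊤
  · simp [hx h]
  · rw [ENNReal.ofReal_mul ENNReal.toReal_nonneg, ENNReal.ofReal_toReal h, sq]

theorem aesm_pot {V : X d → ℝ≥0∞} (hV : Measurable V) {u v : X d → ℝ}
    (hu : AEStronglyMeasurable u volume) (hv : AEStronglyMeasurable v volume) :
    AEStronglyMeasurable (fun x => (V x).toReal * (u x * v x)) volume :=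
  hV.ennreal_toReal.aestronglyMeasurable.mul (hu.mul hv)

theorem Dom.int_self {V : X d → ℝ≥0∞} (hV : Measurable V) {f : P d} (hf : Dom V f) :
    Integrable (fun x => (V x).toReal * (f.1 x * f.1 x)) volume := by
  refine ⟨aesm_pot hV hf.h1.u2.1 hf.h1.u2.1, ?_⟩
  rw [hasFiniteIntegral_iff_ofReal (Eventually.of_forall fun x =>
    mul_nonneg ENNReal.toReal_nonneg (mul_self_nonneg _)), ← lintegral_congr_ae (hf.ae_eq hV)]
  exact hf.fin

theorem Dom.int {V : X d → ℝ≥0∞} (hV : Measurable V) {f h : P d} (hf : Dom V f) (hh : Dom V h) :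
    Integrable (fun x => (V x).toReal * (f.1 x * h.1 x)) volume := by
  refine Integrable.mono' ((hf.int_self hV).add (hh.int_self hV))
    (aesm_pot hV hf.h1.u2.1 hh.h1.u2.1) (Eventually.of_forall fun x => ?_)
  have h0 : 0 ≤ (V x).toReal := ENNReal.toReal_nonneg
  simp only [Pi.add_apply, norm_mul, Real.norm_eq_abs, abs_of_nonneg h0]
  rw [← mul_add]
  apply mul_le_mul_of_nonneg_left _ h0
  nlinarith [sq_nonneg (|f.1 x| - |h.1 x|), sq_abs (f.1 x), sq_abs (h.1 x), abs_nonneg (f.1 x),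
    abs_nonneg (h.1 x)]

theorem Dom.lint {V : X d → ℝ≥0∞} (hV : Measurable V) {f : P d} (hf : Dom V f) :
    ∫⁻ x, V x * ENNReal.ofReal (f.1 x ^ 2) = ENNReal.ofReal (Pt V f f) := by
  rw [lintegral_congr_ae (hf.ae_eq hV), Pt, ofReal_integral_eq_lintegral_ofReal (hf.int_self hV)
    (Eventually.of_forall fun x => mul_nonneg ENNReal.toReal_nonneg (mul_self_nonneg _))]

theorem B_nonneg (f : P d) : 0 ≤ B f f := integral_nonneg fun _ => mul_self_nonneg _

theorem G_nonneg (f : P d) : 0 ≤ G f f :=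
  Finset.sum_nonneg fun _ _ => integral_nonneg fun _ => mul_self_nonneg _

theorem Pt_nonneg (V : X d → ℝ≥0∞) (f : P d) : 0 ≤ Pt V f f :=
  integral_nonneg fun _ => mul_nonneg ENNReal.toReal_nonneg (mul_self_nonneg _)

theorem Q_nonneg (V : X d → ℝ≥0∞) (f : P d) : 0 ≤ Q V f f :=
  add_nonneg (G_nonneg f) (Pt_nonneg V f)

theorem formB1 : Form (HS d) B where
  symm f h := by simp only [B, mul_comm]
  add f hf f' hf' h hh := by
    simp only [B, Prod.fst_add, Pi.add_apply, add_mul]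
    exact integral_add (int_mul hf.u2 hh.u2) (int_mul hf'.u2 hh.u2)
  smul c f h := by
    simp only [B, Prod.smul_fst, Pi.smul_apply, smul_eq_mul, mul_assoc]
    exact integral_const_mul _ _
  nonneg := B_nonneg

theorem formG1 : Form (HS d) G where
  symm f h := by simp only [G, mul_comm]
  add f hf f' hf' h hh := by
    simp only [G, Prod.snd_add, Pi.add_apply, add_mul]
    rw [← Finset.sum_add_distrib]
    exact Finset.sum_congr rfl fun i _ =>
      integral_add (int_mul (hf.g2 i) (hh.g2 i)) (int_mul (hf'.g2 i) (hh.g2 i))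
  smul c f h := by
    simp only [G, Prod.smul_snd, Pi.smul_apply, smul_eq_mul, mul_assoc]
    rw [Finset.mul_sum]
    exact Finset.sum_congr rfl fun i _ => integral_const_mul _ _
  nonneg := G_nonneg

theorem Form.mono {E : Type} [AddCommGroup E] [Module ℝ E] {D D' : Submodule ℝ E}
    {B : E → E → ℝ} (h : Form D B) (hle : D' ≤ D) : Form D' B :=
  ⟨h.symm, fun f hf f' hf' g hg => h.add f (hle hf) f' (hle hf') g (hle hg), h.smul, h.nonneg⟩

theorem DV_le (V : X d → ℝ≥0∞) (hV : Measurable V) : DV V hV ≤ HS d := fun _ hf => hf.h1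

theorem formB (V : X d → ℝ≥0∞) (hV : Measurable V) : Form (DV V hV) B := formB1.mono (DV_le V hV)

theorem formG (V : X d → ℝ≥0∞) (hV : Measurable V) : Form (DV V hV) G := formG1.mono (DV_le V hV)

theorem formPt (V : X d → ℝ≥0∞) (hV : Measurable V) : Form (DV V hV) (Pt V) where
  symm f h := by simp only [Pt, mul_comm]
  add f hf f' hf' h hh := by
    simp only [Pt, Prod.fst_add, Pi.add_apply, add_mul, mul_add]
    exact integral_add (Dom.int hV hf hh) (Dom.int hV hf' hh)
  smul c f h := by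
    simp only [Pt, Prod.smul_fst, Pi.smul_apply, smul_eq_mul]
    rw [← integral_const_mul]
    congr 1; funext x; ring
  nonneg := Pt_nonneg V

theorem formQ (V : X d → ℝ≥0∞) (hV : Measurable V) : Form (DV V hV) (Q V) where
  symm f h := by simp only [Q, (formG V hV).symm f h, (formPt V hV).symm f h]
  add f hf f' hf' h hh := by
    simp only [Q, (formG V hV).add f hf f' hf' h hh, (formPt V hV).add f hf f' hf' h hh]; ring
  smul c f h := by simp only [Q, (formG V hV).smul, (formPt V hV).smul]; ring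
  nonneg := Q_nonneg V

end Pool.Agent.H639Z.OP
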