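import Mathlib

set_option autoImplicit false
open MeasureTheory Filter Topology
open scoped ENNReal

namespace Pool.Agent.H639Z.OP

/-! ### abstract part -/

/-- a symmetric nonnegative form, bilinear on the subspace `D` -/
structure Form {E : Type} [AddCommGroup E] [Module ℝ E] (D : Submodule ℝ E)
    (B : E → E → ℝ) : Prop where
  symm : ∀ f h, B f h = B h f
  add : ∀ f ∈ D, ∀ f' ∈ D, ∀ h ∈ D, B (f + f') h = B f h + B f' h
  smul : ∀ (c : ℝ) (f h : E), B (c • f) h = c * B f h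
  nonneg : ∀ f, 0 ≤ B f f

/-- `k` vectors of `D`, `B`-independent, with Rayleigh quotient at most `L` on their span -/
def PreFrame {E : Type} [AddCommGroup E] [Module ℝ E] (D : Submodule ℝ E)
    (B Q : E → E → ℝ) (k : ℕ) (L : ℝ) (U : Fin k → E) : Prop :=
  (∀ j, U j ∈ D) ∧
  (∀ c : Fin k → ℝ, c ≠ 0 → 0 < B (∑ j, c j • U j) (∑ j, c j • U j)) ∧
  ∀ c : Fin k → ℝ, Q (∑ j, c j • U j) (∑ j, c j • U j) ≤
    L * B (∑ j, c j • U j) (∑ j, c j • U j)

/-- `k` vectors of `D`, `B`-orthonormal, with Rayleigh quotient at most `L` on their span -/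
def Frame {E : Type} [AddCommGroup E] [Module ℝ E] (D : Submodule ℝ E)
    (B Q : E → E → ℝ) (k : ℕ) (L : ℝ) (U : Fin k → E) : Prop :=
  (∀ j, U j ∈ D) ∧
  (∀ i j, B (U i) (U j) = if i = j then 1 else 0) ∧
  ∀ c : Fin k → ℝ, Q (∑ j, c j • U j) (∑ j, c j • U j) ≤ L * ∑ j, c j ^ 2

/-- compactness of `Q`-bounded sets for the `B`-seminorm, with lower semicontinuity -/
def Cpt {E : Type} [AddCommGroup E] [Module ℝ E] (D : Submodule ℝ E)
    (B Q : E → E → ℝ) : Prop :=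
  ∀ (f : ℕ → E) (C : ℝ), (∀ n, f n ∈ D) → (∀ n, B (f n) (f n) ≤ C) → (∀ n, Q (f n) (f n) ≤ C) →
    ∃ φ : ℕ → ℕ, StrictMono φ ∧ ∃ g ∈ D,
      Tendsto (fun n => B (f (φ n) - g) (f (φ n) - g)) atTop (𝓝 0) ∧
      ∀ A : ℝ, A < Q g g → ∀ᶠ n in atTop, A < Q (f (φ n)) (f (φ n))

/-! ### Sobolev part -/

abbrev X (d : ℕ) : Type := Fin d → ℝ

/-- a function together with a candidate gradient -/
abbrev P (d : ℕ) : Type := (X d → ℝ) × (Fin d → X d → ℝ)

variable {d : ℕ}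

/-- partial derivative -/
noncomputable def pd (φ : X d → ℝ) (i : Fin d) (x : X d) : ℝ :=
  fderiv ℝ φ x (Pi.single i (1 : ℝ))

abbrev Sm (φ : X d → ℝ) : Prop := ContDiff ℝ ((⊤ : ℕ∞) : WithTop ℕ∞) φ

/-- weak `H¹` -/
structure H1 (f : P d) : Prop where
  u2 : MemLp f.1 2 volume
  g2 : ∀ i, MemLp (f.2 i) 2 volume
  weak : ∀ (i : Fin d) (φ : X d → ℝ), Sm φ → HasCompactSupport φ →
    ∫ x, f.1 x * pd φ i x = - ∫ x, f.2 i x * φ x

noncomputable def B (f h : P d) : ℝ := ∫ x, f.1 x * h.1 x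

noncomputable def G (f h : P d) : ℝ := ∑ i, ∫ x, f.2 i x * h.2 i x

noncomputable def Pt (V : X d → ℝ≥0∞) (f h : P d) : ℝ := ∫ x, (V x).toReal * (f.1 x * h.1 x)

noncomputable def Q (V : X d → ℝ≥0∞) (f h : P d) : ℝ := G f h + Pt V f h

/-- the form domain -/
structure Dom (V : X d → ℝ≥0∞) (f : P d) : Prop where
  h1 : H1 f
  fin : ∫⁻ x, V x * ENNReal.ofReal (f.1 x ^ 2) < ⊤

/-- admissible potentials -/
def Adm (p : ℝ) (V : X d → ℝ≥0∞) : Prop := Measurable V ∧ ∫⁻ x, V x ^ (-p) ≤ 1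

/-- multiplication by a smooth function -/
noncomputable def mul (η : X d → ℝ) (f : P d) : P d :=
  (fun x => η x * f.1 x, fun i x => η x * f.2 i x + pd η i x * f.1 x)

/-- composition with a map -/
def cmp (σ : X d → X d) (f : P d) : P d := (fun x => f.1 (σ x), fun i x => f.2 i (σ x))

/-- weak convergence in `L²` -/
def WConv (a : ℕ → X d → ℝ) (b : X d → ℝ) : Prop :=
  ∀ ψ : X d → ℝ, MemLp ψ 2 volume →
    Tendsto (fun n => ∫ x, a n x * ψ x) atTop (𝓝 (∫ x, b x * ψ x))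

/-- a cut-off angle: `0` off `T`, `π/2` on `T'`, with derivatives bounded by `M` -/
structure Cut (θ : X d → ℝ) (M : ℝ) (T T' : Set (X d)) : Prop where
  sm : Sm θ
  bd : ∀ i x, |pd θ i x| ≤ M
  nonneg : ∀ x, 0 ≤ θ x
  le : ∀ x, θ x ≤ Real.pi / 2
  off : ∀ x, x ∉ T → θ x = 0
  on : ∀ x, x ∈ T' → θ x = Real.pi / 2

/-- the open slab -/
def slab (i : Fin d) (t r : ℝ) : Set (X d) := {x | |x i - t| < r}

/-- the box with integer sides -/
def box (n : Fin d → ℕ) : Set (X d) := {x | ∀ i, 0 ≤ x i ∧ x i ≤ n i}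

/-- the map that removes the slab `t ≤ x i < t + 1` -/
noncomputable def sqz (i : Fin d) (t : ℝ) (x : X d) : X d :=
  if x i < t then x else x + Pi.single i (1 : ℝ)

end Pool.Agent.H639Z.OP
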